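import Pool.Agent.P.MP_708877_co.Full.All

/-!
Classification of all finite uniform polyhedra in Euclidean 3-space.
-/

namespace Pool.Agent.Results.MP_708877_co.FiniteClassification

open Pool.Agent.P.MP_708877_co

theorem result (P : Set (Set (Sym2 E3))) (hfin : (verts P).Finite) :
    IsUniform P ↔
      ∃ (c : ℝ) (g : E3 ≃ᵢ E3) (Q : Set (Set (Sym2 E3))),
        0 < c ∧ (IsModel Q ∨ ∃ s ∈ sites, s.Has Q) ∧ P = image (fun x => c • g x) Q :=
  full_classification hfin

end Pool.Agent.Results.MP_708877_co.FiniteClassification
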